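import Pool.Agent.L7h48.RT.Stm

/-!
Project RT (helper48), parts PAR, CTD, EDG (helper87)
-/

namespace Pool.Agent.L7h87.RT

open Pool.Agent.L7h48.RT
open scoped Classical

theorem s_PAR : S_PAR := by
  intro ι _ a r hr ha h2 hi
  by_cases h : ∃ i, r / 2 ≤ a i
  · obtain ⟨i, h3⟩ := h
    refine ⟨{i}, by simpa using h3, ?_⟩
    have h4 : ∑ j ∈ Finset.univ \ {i}, a j + ∑ j ∈ ({i} : Finset ι), a j = ∑ j, a j :=
      Finset.sum_sdiff (Finset.subset_univ _)
    rw [Finset.sum_singleton] at h4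
    have h5 := hi i
    linarith
  · push Not at h
    have hP : ∃ k : ℕ, ∃ S : Finset ι, S.card = k ∧ r / 2 ≤ ∑ i ∈ S, a i :=
      ⟨_, Finset.univ, rfl, by linarith⟩
    obtain ⟨S, hS, h3⟩ := Nat.find_spec hP
    refine ⟨S, h3, ?_⟩
    have hne : S.Nonempty := by
      rw [Finset.nonempty_iff_ne_empty]
      rintro rfl
      rw [Finset.sum_empty] at h3
      linarith
    obtain ⟨i, hiS⟩ := hne
    have h4 : ∑ j ∈ S.erase i, a j < r / 2 := by
      by_contra hcon
      push Not at hcon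
      have h5 := Nat.find_min hP (m := (S.erase i).card) (by
        rw [← hS]
        exact Finset.card_erase_lt_of_mem hiS)
      exact h5 ⟨S.erase i, rfl, hcon⟩
    have h5 : ∑ j ∈ S.erase i, a j + a i = ∑ j ∈ S, a j := Finset.sum_erase_add _ _ hiS
    have h6 := h i
    have h7 : ∑ j ∈ Finset.univ \ S, a j + ∑ j ∈ S, a j = ∑ j, a j :=
      Finset.sum_sdiff (Finset.subset_univ _)
    linarith

theorem s_CTD : S_CTD := by
  intro c u t hu hu1 ht
  set A := (Finset.univ : Finset (Finset (Fin c))).filter fun D => (D.card : ℝ) ≤ t with hA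
  have h1 : ∑ D : Finset (Fin c), u ^ D.card = (1 + u) ^ c := by
    have h2 := Fintype.sum_pow_mul_eq_add_pow (Fin c) u (1 : ℝ)
    simp only [one_pow, mul_one, Fintype.card_fin] at h2
    rw [h2, add_comm]
  have h2 : (A.card : ℝ) * u ^ t ≤ (1 + u) ^ c := by
    rw [← h1, ← nsmul_eq_mul]
    refine le_trans (Finset.card_nsmul_le_sum A (fun D => u ^ D.card) (u ^ t) ?_) ?_
    · intro D hD
      have h3 : (D.card : ℝ) ≤ t := (Finset.mem_filter.1 hD).2
      rw [← Real.rpow_natCast]
      exact Real.rpow_le_rpow_of_exponent_ge hu hu1 h3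
    · exact Finset.sum_le_sum_of_subset_of_nonneg (Finset.subset_univ _)
        fun D _ _ => pow_nonneg hu.le _
  have h3 : 0 < u ^ t := Real.rpow_pos_of_pos hu t
  rw [one_div, Real.inv_rpow hu.le]
  rw [inv_mul_eq_div, le_div_iff₀ h3]
  exact h2

/-- one coordinate -/
theorem E_coord {ι S : Type} [Fintype ι] [DecidableEq ι] [Fintype S] (w : S → ℝ)
    (hw : ∑ s, w s = 1) (e0 : ι) (g : S → ℝ) :
    E w (fun x : ι → S => g (x e0)) = ∑ s, w s * g s := by
  have h1 := Finset.prod_univ_sum (R := ℝ) (fun _ : ι => (Finset.univ : Finset S))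
    (fun e s => w s * (if e = e0 then g s else 1))
  rw [Fintype.piFinset_univ] at h1
  have h2 : ∀ x : ι → S, ∏ e, w (x e) * (if e = e0 then g (x e) else 1) =
      (∏ e, w (x e)) * g (x e0) := by
    intro x
    rw [Finset.prod_mul_distrib, Finset.prod_ite_eq' Finset.univ e0 (fun e => g (x e))]
    simp
  unfold E
  rw [← Finset.sum_congr rfl fun x _ => h2 x, ← h1]
  rw [← Finset.mul_prod_erase Finset.univ _ (Finset.mem_univ e0)]
  have h3 : ∏ e ∈ Finset.univ.erase e0, ∑ s, w s * (if e = e0 then g s else 1) = 1 := by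
    refine Finset.prod_eq_one fun e he => ?_
    have h4 : e ≠ e0 := Finset.ne_of_mem_erase he
    simp [h4, hw]
  rw [h3, mul_one]
  simp

theorem w1_nonneg {c : ℕ} {p : ℝ} (hp : 0 ≤ p) (hp1 : p ≤ 1) (s : Option (Fin c)) :
    0 ≤ w1 c p s := by
  unfold w1
  split_ifs
  · linarith
  · positivity

theorem w1_sum {c : ℕ} {p : ℝ} (hc : 0 < c) : ∑ s, w1 c p s = 1 := by
  rw [Fintype.sum_option]
  have hc' : (c : ℝ) ≠ 0 := by positivity
  simp only [w1, if_true, reduceCtorEq, if_false, Finset.sum_const, Finset.card_univ,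
    Fintype.card_fin, nsmul_eq_mul]
  field_simp
  ring

theorem E_mono {ι S : Type} [Fintype ι] [DecidableEq ι] [Fintype S] {w : S → ℝ}
    (hw : ∀ s, 0 ≤ w s) {f g : (ι → S) → ℝ} (h : ∀ x, f x ≤ g x) : E w f ≤ E w g := by
  unfold E
  exact Finset.sum_le_sum fun x _ => mul_le_mul_of_nonneg_left (h x)
    (Finset.prod_nonneg fun e _ => hw _)

theorem card_Pr (n : ℕ) : (Fintype.card (Pr n) : ℝ) ≤ (n : ℝ) ^ 2 := by
  have h1 : Fintype.card (Pr n) ≤ Fintype.card (Sym2 (Fin n)) := Fintype.card_subtype_le _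
  have h2 : Fintype.card (Sym2 (Fin n)) ≤ Fintype.card (Fin n × Fin n) :=
    Fintype.card_le_of_surjective (fun q : Fin n × Fin n => s(q.1, q.2)) (by
      intro e
      induction e using Sym2.ind with
      | _ a b => exact ⟨(a, b), rfl⟩)
  rw [Fintype.card_prod, Fintype.card_fin] at h2
  have h3 : Fintype.card (Pr n) ≤ n ^ 2 := by
    rw [sq]
    exact h1.trans h2
  exact_mod_cast h3

theorem s_EDG : S_EDG := by
  intro n c p N hc hp hp1 hN
  have h1 : ∀ x : Col n c, ind (N < ne x) ≤ (1 / N) * ∑ e : Pr n, (if x e ≠ none then (1 : ℝ) else 0) := by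
    intro x
    have h2 : ∑ e : Pr n, (if x e ≠ none then (1 : ℝ) else 0) = ne x := by
      unfold ne
      rw [Finset.sum_boole]
    rw [h2]
    unfold ind
    split_ifs with h3
    · rw [one_div, inv_mul_eq_div, le_div_iff₀ hN, one_mul]
      exact h3.le
    · positivity
  refine (E_mono (fun s => w1_nonneg hp hp1 s) h1).trans ?_
  have h3 : E (w1 c p) (fun x : Col n c => (1 / N) * ∑ e : Pr n, (if x e ≠ none then (1 : ℝ) else 0)) =
      (1 / N) * ∑ e : Pr n, E (w1 c p) (fun x : Col n c => if x e ≠ none then (1 : ℝ) else 0) := by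
    unfold E
    rw [Finset.sum_comm, Finset.mul_sum]
    refine Finset.sum_congr rfl fun x _ => ?_
    beta_reduce
    rw [← Finset.mul_sum]
    ring
  rw [h3]
  have h4 : ∀ e : Pr n, E (w1 c p) (fun x : Col n c => if x e ≠ none then (1 : ℝ) else 0) = p := by
    intro e
    rw [E_coord (w1 c p) (w1_sum hc) e (fun s => if s ≠ none then (1 : ℝ) else 0)]
    rw [Fintype.sum_option]
    have hc' : (c : ℝ) ≠ 0 := by positivity
    simp only [w1, ne_eq, not_true_eq_false, if_false, mul_zero, reduceCtorEq, not_false_eq_true,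
      if_true, mul_one, Finset.sum_const, Finset.card_univ, Fintype.card_fin, nsmul_eq_mul, zero_add]
    field_simp
  rw [Finset.sum_congr rfl fun e _ => h4 e, Finset.sum_const, Finset.card_univ, nsmul_eq_mul]
  rw [one_div, inv_mul_eq_div]
  exact div_le_div_of_nonneg_right (mul_le_mul_of_nonneg_right (card_Pr n) hp) hN.le

end Pool.Agent.L7h87.RT
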